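import Pool.Agent.H70K.T2

/-!
# The rectangular component and the Hermite-Hadamard-Howe map

`V = ℂ^n`, so that `S_{(d^n)} V = det^d`.  For every odd `d` and every `n ≥ 2` the map `h_{d,n}`
vanishes on the `det^d`-isotypic component of `S^d(S^n V)` (a row transposition has determinant
`-1` but acts trivially), and for `(d, n) = (7, 4)` this component is not zero: the symmetrised
bracket monomial of the seven complements of the lines of the Fano plane is a nonzero invariant of
degree 7 of quaternary quartics.
-/

namespace Pool.Agent.Results.MP_96ff56_al.OddDegreeKernel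

open Pool.Agent.H70K

theorem result :
    (∀ d n : ℕ, Odd d → 2 ≤ n → ∀ T ∈ rect d n, hmap T = 0) ∧ (∃ T ∈ rect 7 4, T ≠ 0) :=
  ⟨partA, T4, T4_rect, T4_ne⟩

end Pool.Agent.Results.MP_96ff56_al.OddDegreeKernel
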